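import Pool.Agent.P8H82.PH.Stm

/-!
# Project PH, package CNT
-/

set_option autoImplicit false

namespace Pool.Agent.P8H44.PH

open Pool.Agent.P8H82.PH

lemma card_fib {ι : Type} {n : ℕ} (A : Set (Fin (n + 1) → ι)) (B : ι → Set (Fin n → ι))
    (F : Finset ι) (h : ∀ v, v ∈ A ↔ v 0 ∈ F ∧ Fin.tail v ∈ B (v 0)) (hB : ∀ i ∈ F, (B i).Finite) :
    A.Finite ∧ A.ncard = ∑ i ∈ F, (B i).ncard := by
  have e : A ≃ Σ i : F, B i.1 :=
    { toFun := fun v => ⟨⟨v.1 0, ((h v.1).1 v.2).1⟩, ⟨Fin.tail v.1, ((h v.1).1 v.2).2⟩⟩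
      invFun := fun p => ⟨Fin.cons p.1.1 p.2.1, by
        rw [h]
        refine ⟨?_, ?_⟩
        · rw [Fin.cons_zero]; exact p.1.2
        · rw [Fin.tail_cons, Fin.cons_zero]; exact p.2.2⟩
      left_inv := fun v => by
        apply Subtype.ext
        exact Fin.cons_self_tail v.1
      right_inv := fun p => by
        obtain ⟨⟨i, hi⟩, ⟨w, hw⟩⟩ := p
        rfl }
  have hfin : ∀ i : F, Finite (B i.1) := fun i => (hB i.1 i.2).to_subtype
  have : Finite (Σ i : F, B i.1) := inferInstance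
  have hA : Finite A := Finite.of_equiv _ e.symm
  refine ⟨Set.toFinite A, ?_⟩
  show Nat.card A = _
  rw [Nat.card_congr e, Nat.card_sigma, ← Finset.sum_coe_sort F]
  rfl

lemma one_le_prod {ι : Type} {N : ι → ℝ} (hN : ∀ i, 1 ≤ N i) : ∀ (n : ℕ) (v : Fin n → ι),
    1 ≤ ∏ k, N (v k)
  | 0, v => by simp
  | n + 1, v => by
    rw [Fin.prod_univ_succ]
    have h1 := one_le_prod hN n (fun k => v k.succ)
    have h2 := hN (v 0)
    nlinarith

lemma mem_split {ι : Type} {N : ι → ℝ} (hfin : ∀ X : ℝ, {i | N i ≤ X}.Finite) (hN : ∀ i, 1 ≤ N i)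
    {n : ℕ} (X : ℝ) (v : Fin (n + 1) → ι) :
    (∏ k, N (v k) ≤ X) ↔ v 0 ∈ (hfin X).toFinset ∧ ∏ k, N (Fin.tail v k) ≤ X / N (v 0) := by
  have h0 : 0 < N (v 0) := by linarith [hN (v 0)]
  rw [Fin.prod_univ_succ, le_div_iff₀ h0, Set.Finite.mem_toFinset]
  have h1 := one_le_prod hN n (Fin.tail v)
  have h2 : ∏ k : Fin n, N (v k.succ) = ∏ k, N (Fin.tail v k) := rfl
  rw [h2]
  constructor
  · intro h
    refine ⟨?_, by linarith [mul_comm (N (v 0)) (∏ k, N (Fin.tail v k))]⟩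
    show N (v 0) ≤ X
    nlinarith
  · rintro ⟨-, h⟩
    linarith [mul_comm (N (v 0)) (∏ k, N (Fin.tail v k))]

theorem cnt : S_CNT := by
  intro ι N h hfin hN
  have hF : ∀ (n : ℕ) (X : ℝ), {v : Fin n → ι | ∏ k, N (v k) ≤ X}.Finite := by
    intro n
    induction n with
    | zero => intro X; exact Set.toFinite _
    | succ n ih =>
      intro X
      exact (card_fib _ (fun i => {v : Fin n → ι | ∏ k, N (v k) ≤ X / N i}) (hfin X).toFinset
        (fun v => mem_split hfin hN X v) (fun i _ => ih _)).1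
  intro n X
  refine ⟨hF n X, ?_, fun x => ?_⟩
  · exact (card_fib _ (fun i => {v : Fin n → ι | ∏ k, N (v k) ≤ X / N i}) (hfin X).toFinset
      (fun v => mem_split hfin hN X v) (fun i _ => hF n _)).2
  · refine (card_fib _ (fun i => {v : Fin n → ι | ∏ k, N (v k) ≤ X / N i ∧ ∑ k, h (v k) ≤ x - h i})
      (hfin X).toFinset (fun v => ?_) (fun i _ => (hF n _).subset fun v hv => hv.1)).2
    show (∏ k, N (v k) ≤ X ∧ ∑ k, h (v k) ≤ x) ↔ _ ∧ (_ ∧ ∑ k, h (Fin.tail v k) ≤ x - h (v 0))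
    rw [mem_split hfin hN X v, and_assoc, Fin.sum_univ_succ]
    have h2 : ∑ k : Fin n, h (v k.succ) = ∑ k, h (Fin.tail v k) := rfl
    rw [h2, le_sub_iff_add_le, add_comm (h (v 0))]

end Pool.Agent.P8H44.PH
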