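import Pool.Agent.P8H82.PH.Stm

/-!
# Project PH, package POLYA
-/

set_option autoImplicit false

namespace Pool.Agent.P8H44.PH

open Pool.Agent.P8H82.PH Filter Topology

theorem polya : S_POLYA := by
  intro f t G c hc hGc hGm hG0 hG1 hf ht hfG ε hε
  -- bounds for `G`
  have hG0' : ∀ z, 0 ≤ G z := fun z => hGm.le_of_tendsto hG0 z
  have hG1' : ∀ z, G z ≤ 1 := fun z => hGm.ge_of_tendsto hG1 z
  obtain ⟨m, hm⟩ := exists_nat_gt (4 * c / ε)
  have hm0 : 0 < m := by
    have : (0 : ℝ) < m := lt_of_le_of_lt (by positivity) hm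
    exact_mod_cast this
  have hmR : (0 : ℝ) < m := by exact_mod_cast hm0
  have hcm : c / m ≤ ε / 4 := by
    rw [div_lt_iff₀ hε] at hm
    rw [div_le_iff₀ hmR]
    linarith
  have hex : ∀ j : ℕ, 0 < j → j < m → ∃ z, G z = j / m := by
    intro j hj0 hjm
    have h1 : (0 : ℝ) < j / m := by positivity
    have h2 : (j : ℝ) / m < 1 := by
      rw [div_lt_one hmR]; exact_mod_cast hjm
    obtain ⟨a, ha⟩ := (hG0.eventually (gt_mem_nhds h1)).exists
    obtain ⟨b, hb⟩ := (hG1.eventually (lt_mem_nhds h2)).exists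
    exact mem_range_of_exists_le_of_exists_ge hGc ⟨a, ha.le⟩ ⟨b, hb.le⟩
  choose! zz hzz using hex
  have hev : ∀ᶠ X in atTop, ∀ j ∈ Finset.range m, |f X (zz j) - c * G (zz j)| ≤ ε / 4 := by
    rw [Filter.eventually_all_finset]
    intro j _
    have := (hfG (zz j)).sub_const (c * G (zz j))
    rw [sub_self] at this
    have h2 := this.abs
    rw [abs_zero] at h2
    exact (h2.eventually (gt_mem_nhds (show (0 : ℝ) < ε / 4 by positivity))).mono fun X hX => hX.le
  have hevt : ∀ᶠ X in atTop, t X ≤ c + ε / 4 :=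
    (ht.eventually (gt_mem_nhds (show c < c + ε / 4 by linarith))).mono fun X hX => hX.le
  filter_upwards [hf, hev, hevt] with X ⟨hmono, hbd⟩ hXj hXt z
  obtain ⟨j, hj⟩ : ∃ j : ℕ, j = ⌊m * G z⌋₊ := ⟨_, rfl⟩
  have hmG : 0 ≤ m * G z := mul_nonneg hmR.le (hG0' z)
  have hj1 : (j : ℝ) ≤ m * G z := by rw [hj]; exact Nat.floor_le hmG
  have hj2 : m * G z < j + 1 := by rw [hj]; exact Nat.lt_floor_add_one _
  have hcj : ∀ a : ℝ, c * (a / m) = a * (c / m) := fun a => by ring
  have hGz1 : c * G z ≤ (j + 1) * (c / m) := by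
    have h1 : G z ≤ (j + 1) / m := by
      rw [le_div_iff₀ hmR]; linarith
    calc c * G z ≤ c * ((j + 1) / m) := mul_le_mul_of_nonneg_left h1 hc
      _ = _ := hcj _
  have hGz2 : j * (c / m) ≤ c * G z := by
    have h1 : j / m ≤ G z := by
      rw [div_le_iff₀ hmR]; linarith
    calc j * (c / m) = c * (j / m) := (hcj _).symm
      _ ≤ c * G z := mul_le_mul_of_nonneg_left h1 hc
  have hcm0 : 0 ≤ c / m := by positivity
  rw [abs_le]
  constructor
  · -- lower bound
    rcases Nat.lt_or_ge j 2 with h | h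
    · have h1 : (j : ℝ) ≤ 1 := by exact_mod_cast (show j ≤ 1 by omega)
      have h2 := (hbd z).1
      nlinarith
    · have hjm : j ≤ m := by
        have h3 : (j : ℝ) ≤ m := by nlinarith [hG1' z]
        exact_mod_cast h3
      have h4 := hzz (j - 1) (by omega) (by omega)
      have h5 : ((j - 1 : ℕ) : ℝ) = j - 1 := by
        rw [Nat.cast_sub (by omega)]; simp
      rw [h5] at h4
      have h6 : G (zz (j - 1)) < G z := by
        rw [h4, div_lt_iff₀ hmR]; linarith
      have h7 : zz (j - 1) ≤ z := by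
        by_contra hcon
        push Not at hcon
        exact absurd (hGm hcon.le) (not_le.2 h6)
      have h8 := hmono h7
      have h9 := hXj (j - 1) (Finset.mem_range.2 (by omega))
      rw [abs_le] at h9
      rw [h4, hcj] at h9
      nlinarith [h9.1]
  · -- upper bound
    rcases Nat.lt_or_ge (j + 1) m with h | h
    · have h4 := hzz (j + 1) (by omega) h
      have h5 : ((j + 1 : ℕ) : ℝ) = j + 1 := by push_cast; ring
      rw [h5] at h4
      have h6 : G z < G (zz (j + 1)) := by
        rw [h4, lt_div_iff₀ hmR]; linarith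
      have h7 : z ≤ zz (j + 1) := by
        by_contra hcon
        push Not at hcon
        exact absurd (hGm hcon.le) (not_le.2 h6)
      have h8 := hmono h7
      have h9 := hXj (j + 1) (Finset.mem_range.2 h)
      rw [abs_le] at h9
      rw [h4, hcj] at h9
      nlinarith [h9.2]
    · have h1 := (hbd z).2
      have h2 : (m : ℝ) ≤ j + 1 := by exact_mod_cast h
      have h3 : c = m * (c / m) := by field_simp
      have h4 : m * (c / m) ≤ (j + 1) * (c / m) := mul_le_mul_of_nonneg_right h2 hcm0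
      nlinarith

end Pool.Agent.P8H44.PH
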